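import Mathlib
import Pool.Agent.N578.LB.Def

/-!
# Almost every point of the space of real Weil polynomials: the definitions

The point `x` of `ℤ ^ n`, `n = ∑ g i`, gives the polynomials `h_i = X ^ (g i) + ∑ x_(i,k) X ^ k` (`hpoly`) and
`f_i = X ^ (g i) h_i(X + q / X)` (`fpoly`); the Weil `q`-polynomials of degree `2 g i` are of this form, with all roots of `h_i` in
`[-2 √q, 2 √q]`, so that the coordinate `x_(i,k)` has size `q ^ ((g i - k) / 2)`. Real points `ξ` describe normalised real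
polynomials `X ^ (g i) + ∑ ξ_(i,k) X ^ k` (with roots in `[-2, 2]` for Weil polynomials: sums of the pairs of conjugate Frobenius
eigenvalues, divided by `√q`).
-/

set_option autoImplicit false

namespace Pool.Agent.N220.ME

open Polynomial Filter Pool.Agent.N578.LB

variable {I : Type}

/-- The exponent `(g i - k) / 2` of `q` in the size of the coefficient of index `k` of `h i`. -/
noncomputable def expo (g : I → ℕ) (s : Σ i, Fin (g i)) : ℝ := ((g s.1 : ℝ) - (s.2 : ℕ)) / 2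

/-- The point `x` is near `ξ`: `|x_(i,k) - q ^ ((g i - k) / 2) ξ_(i,k)| ≤ q ^ η` for all `i` and `k`. -/
def NearPoint (g : I → ℕ) (η : ℝ) (q : ℕ) (ξ : (Σ i, Fin (g i)) → ℝ) (x : (Σ i, Fin (g i)) → ℤ) : Prop :=
  ∀ s, |(x s : ℝ) - (q : ℝ) ^ expo g s * ξ s| ≤ (q : ℝ) ^ η

/-- All the points `x` near `ξ` for which `q` divides none of the `tr(h_i) ^ 2` have the property `P q f`. -/
def AllNear (g : I → ℕ) (P : ℕ → (I → ℤ[X]) → Prop) (η : ℝ) (q : ℕ) (ξ : (Σ i, Fin (g i)) → ℝ) : Prop :=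
  ∀ x : (Σ i, Fin (g i)) → ℤ, NearPoint g η q ξ x → (∀ i, ¬ (q : ℤ) ∣ (hpoly g x i).nextCoeff ^ 2) →
    P q (fun i => fpoly q (hpoly g x i))

/-- Let `n = ∑ g i` and let `ξ` be a point of `ℝ ^ n`. For all `η ≥ 0` with `n η < 1 / 6`: (1) for every prime `p` and all
large `m`, with `q = p ^ m`, ALL the points `x` of `ℤ ^ n` with `|x_(i,k) - q ^ ((g i - k) / 2) ξ_(i,k)| ≤ q ^ η` for all `i, k`,
for which `q` divides none of the `tr(h_i) ^ 2`, have the property `P q f`; (2) for all `β > 5 / 6 + n η` the number of the prime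
powers `q ≤ Q` for which this is false is at most `C Q ^ β`, for some `C` and all `Q`. -/
def HoldsNear [Fintype I] (g : I → ℕ) (P : ℕ → (I → ℤ[X]) → Prop) (ξ : (Σ i, Fin (g i)) → ℝ) : Prop :=
  ∀ η : ℝ, 0 ≤ η → (∑ i, g i : ℕ) * η < 1 / 6 →
    (∀ p : ℕ, p.Prime → ∀ᶠ m : ℕ in atTop, AllNear g P η (p ^ m) ξ) ∧
    ∀ β : ℝ, 5 / 6 + (∑ i, g i : ℕ) * η < β → ∃ C : ℝ, ∀ Q : ℕ,
      ({q : ℕ | q ≤ Q ∧ IsPrimePow q ∧ ¬ AllNear g P η q ξ}.ncard : ℝ) ≤ C * (Q : ℝ) ^ β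

end Pool.Agent.N220.ME
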