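import Mathlib
import Pool.Agent.N220.ME.Def

/-!
# Almost every point of the space of real Weil polynomials

`InAllLattices g P` (helper578) says that the Weil polynomials without the property `P` are rare in all boxes. Here: for almost
every real point `ξ` ALL the Weil `q`-polynomials near `ξ` (after the normalisation by the powers of `√q`) have the property, for
all but few prime powers `q` (Borel-Cantelli).
-/

set_option autoImplicit false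

namespace Pool.Agent.N220.ME

open Polynomial MeasureTheory Filter Topology Pool.Agent.N578.LB
open scoped ENNReal

section

variable {I : Type}

lemma expo_ge (g : I → ℕ) (s : Σ i, Fin (g i)) : 1 / 2 ≤ expo g s := by
  unfold expo
  have h := s.2.2
  have h2 : ((s.2 : ℕ) : ℝ) + 1 ≤ g s.1 := by exact_mod_cast h
  linarith

lemma cell (g : I → ℕ) (η : ℝ) (q : ℕ) (hq : 0 < q) (x : (Σ i, Fin (g i)) → ℤ) :
    {ξ : (Σ i, Fin (g i)) → ℝ | NearPoint g η q ξ x} =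
      Set.pi Set.univ (fun s => Set.Icc (((x s : ℝ) - (q : ℝ) ^ η) / (q : ℝ) ^ expo g s)
        (((x s : ℝ) + (q : ℝ) ^ η) / (q : ℝ) ^ expo g s)) := by
  ext ξ
  rw [Set.mem_univ_pi]
  refine forall_congr' fun s => ?_
  have h1 : (0 : ℝ) < (q : ℝ) ^ expo g s := Real.rpow_pos_of_pos (by exact_mod_cast hq) _
  rw [abs_le, Set.mem_Icc, div_le_iff₀ h1, le_div_iff₀ h1]
  constructor
  · rintro ⟨h2, h3⟩
    constructor <;> linarith [mul_comm (ξ s) ((q : ℝ) ^ expo g s)]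
  · rintro ⟨h2, h3⟩
    constructor <;> linarith [mul_comm (ξ s) ((q : ℝ) ^ expo g s)]

end

variable {I : Type} [Fintype I] [DecidableEq I]

lemma vol_cell (g : I → ℕ) (η : ℝ) (q : ℕ) (hq : 0 < q) (x : (Σ i, Fin (g i)) → ℤ) :
    volume {ξ : (Σ i, Fin (g i)) → ℝ | NearPoint g η q ξ x} =
      ENNReal.ofReal (∏ s : (Σ i, Fin (g i)), (2 * (q : ℝ) ^ η / (q : ℝ) ^ expo g s)) := by
  rw [cell g η q hq x, Set.pi_univ_Icc, Real.volume_Icc_pi, ENNReal.ofReal_prod_of_nonneg]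
  · refine Finset.prod_congr rfl fun s _ => ?_
    congr 1
    ring
  · intro s _
    positivity

lemma meas_cell (g : I → ℕ) (η : ℝ) (q : ℕ) (hq : 0 < q) (x : (Σ i, Fin (g i)) → ℤ) :
    MeasurableSet {ξ : (Σ i, Fin (g i)) → ℝ | NearPoint g η q ξ x} := by
  rw [cell g η q hq x, Set.pi_univ_Icc]
  exact measurableSet_Icc

/-- the points without the property -/
def Bad (g : I → ℕ) (P : ℕ → (I → ℤ[X]) → Prop) (q : ℕ) : Set ((Σ i, Fin (g i)) → ℤ) :=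
  {x | (∀ i, ¬ (q : ℤ) ∣ (hpoly g x i).nextCoeff ^ 2) ∧ ¬ P q (fun i => fpoly q (hpoly g x i))}

lemma notAllNear (g : I → ℕ) (P : ℕ → (I → ℤ[X]) → Prop) (η : ℝ) (q : ℕ) :
    {ξ : (Σ i, Fin (g i)) → ℝ | ¬ AllNear g P η q ξ} = ⋃ x ∈ Bad g P q, {ξ | NearPoint g η q ξ x} := by
  ext ξ
  rw [Set.mem_iUnion₂]
  constructor
  · intro h
    have h' : ¬ AllNear g P η q ξ := h
    unfold AllNear at h'
    push Not at h'
    obtain ⟨x, h1, h2, h3⟩ := h'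
    exact ⟨x, ⟨h2, h3⟩, h1⟩
  · rintro ⟨x, hx, h1⟩ h
    exact hx.2 (h x h1 hx.1)

lemma meas_notAllNear (g : I → ℕ) (P : ℕ → (I → ℤ[X]) → Prop) (η : ℝ) (q : ℕ) (hq : 0 < q) :
    MeasurableSet {ξ : (Σ i, Fin (g i)) → ℝ | ¬ AllNear g P η q ξ} := by
  rw [notAllNear]
  exact MeasurableSet.biUnion (Set.to_countable _) fun x _ => meas_cell g η q hq x

lemma vol_bad (g : I → ℕ) (P : ℕ → (I → ℤ[X]) → Prop) (hP : InAllLattices g P) (η γ : ℝ) (hη : 0 ≤ η)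
    (hγ : 0 < γ) (h : (∑ i, g i : ℕ) * η + γ < 1 / 6) (K : ℕ) :
    ∃ D : ℝ, 0 ≤ D ∧ ∀ q : ℕ, IsPrimePow q →
      volume ({ξ : (Σ i, Fin (g i)) → ℝ | ¬ AllNear g P η q ξ} ∩
        Set.Icc (fun _ => -(K : ℝ)) (fun _ => (K : ℝ))) ≤ ENNReal.ofReal (D * (q : ℝ) ^ (-γ)) := by
  classical
  obtain ⟨C, hC⟩ := hP.1
  obtain ⟨n, hn⟩ : ∃ n : ℕ, n = ∑ i, g i := ⟨_, rfl⟩
  rw [← hn] at h
  have hcard : Fintype.card (Σ i, Fin (g i)) = n := by
    rw [Fintype.card_sigma, hn]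
    simp
  obtain ⟨δ, hδ⟩ : ∃ δ : ℝ, δ = 1 / 6 - n * η - γ := ⟨_, rfl⟩
  have hδ0 : 0 < δ := by rw [hδ]; linarith
  have hnη : 0 ≤ (n : ℝ) * η := by positivity
  have hδ1 : δ ≤ 1 / 6 := by rw [hδ]; linarith
  refine ⟨|C| * (1 / (2 * δ)) * (4 * K + 12) ^ n, by positivity, fun q hq => ?_⟩
  have hq1 : (1 : ℝ) ≤ q := by exact_mod_cast hq.one_lt.le
  have hq0 : (0 : ℝ) < q := by linarith
  -- the box
  obtain ⟨T, hT⟩ : ∃ T : (Σ i, Fin (g i)) → ℕ, T = fun s => ⌈((K : ℝ) + 1) * (q : ℝ) ^ expo g s⌉₊ := ⟨_, rfl⟩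
  have hpe : ∀ s, (1 : ℝ) ≤ (q : ℝ) ^ expo g s := fun s =>
    Real.one_le_rpow hq1 (by linarith [expo_ge g s])
  have hT1 : ∀ s, ((K : ℝ) + 1) * (q : ℝ) ^ expo g s ≤ T s := by
    intro s
    rw [hT]
    exact Nat.le_ceil _
  have hT2 : ∀ s, (T s : ℝ) ≤ ((K : ℝ) + 2) * (q : ℝ) ^ expo g s := by
    intro s
    have h1 : (T s : ℝ) < ((K : ℝ) + 1) * (q : ℝ) ^ expo g s + 1 := by
      rw [hT]
      exact Nat.ceil_lt_add_one (by have := hpe s; positivity)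
    have := hpe s
    linarith
  obtain ⟨B, hB⟩ : ∃ B : ℝ, B = 2 * (q : ℝ) ^ (1 / 2 : ℝ) := ⟨_, rfl⟩
  have hsq : (1 : ℝ) ≤ (q : ℝ) ^ (1 / 2 : ℝ) := Real.one_le_rpow hq1 (by norm_num)
  have hB2 : 2 ≤ B := by rw [hB]; linarith
  have hBN : ∀ s, B ≤ ((2 * T s + 1 : ℕ) : ℝ) := by
    intro s
    have h1 : (q : ℝ) ^ (1 / 2 : ℝ) ≤ (q : ℝ) ^ expo g s := Real.rpow_le_rpow_of_exponent_le hq1 (expo_ge g s)
    have h2 := hT1 s
    have h3 : (q : ℝ) ^ expo g s ≤ ((K : ℝ) + 1) * (q : ℝ) ^ expo g s := by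
      have : (0 : ℝ) ≤ K := Nat.cast_nonneg K
      nlinarith [hpe s]
    rw [hB]
    push_cast
    linarith
  have hmain := hC q hq B hB2 1 (by rw [Matrix.det_one]; exact one_ne_zero)
    (by rw [Matrix.det_one]; simp; positivity) 0 (fun s => -(T s : ℤ)) (fun s => 2 * T s + 1) hBN
  simp only [Matrix.one_mulVec, zero_add] at hmain
  obtain ⟨F, hF⟩ : ∃ F : Set ((Σ i, Fin (g i)) → ℤ), F = {y | (∀ s, -(T s : ℤ) ≤ y s ∧
    y s < -(T s : ℤ) + ((2 * T s + 1 : ℕ) : ℤ)) ∧ (∀ i, ¬ (q : ℤ) ∣ (hpoly g y i).nextCoeff ^ 2) ∧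
      ¬ P q (fun i => fpoly q (hpoly g y i))} := ⟨_, rfl⟩
  rw [← hF] at hmain
  have hFfin : F.Finite := by
    refine (Set.finite_Icc (fun s => -(T s : ℤ)) (fun s => (T s : ℤ))).subset ?_
    intro y hy
    rw [hF] at hy
    rw [Set.mem_Icc, Pi.le_def, Pi.le_def]
    exact ⟨fun s => (hy.1 s).1, fun s => by have := (hy.1 s).2; push_cast at this; omega⟩
  have hsub : ({ξ : (Σ i, Fin (g i)) → ℝ | ¬ AllNear g P η q ξ} ∩
      Set.Icc (fun _ => -(K : ℝ)) (fun _ => (K : ℝ))) ⊆ ⋃ x ∈ hFfin.toFinset, {ξ | NearPoint g η q ξ x} := by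
    rintro ξ ⟨h1, h2⟩
    rw [notAllNear, Set.mem_iUnion₂] at h1
    obtain ⟨x, hx, hxn⟩ := h1
    rw [Set.mem_iUnion₂]
    refine ⟨x, ?_, hxn⟩
    rw [Set.Finite.mem_toFinset, hF]
    refine ⟨fun s => ?_, hx.1, hx.2⟩
    have h3 : |ξ s| ≤ K := abs_le.2 ⟨h2.1 s, h2.2 s⟩
    have h4 := hxn s
    have h5 : (q : ℝ) ^ η ≤ (q : ℝ) ^ expo g s := by
      refine Real.rpow_le_rpow_of_exponent_le hq1 ?_
      have h6 : η ≤ 1 / 2 := by
        have : (1 : ℝ) ≤ n := by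
          have : 0 < n := by
            rw [← hcard]
            exact Fintype.card_pos_iff.2 ⟨s⟩
          exact_mod_cast this
        nlinarith
      linarith [expo_ge g s]
    have h7 : |(x s : ℝ)| ≤ ((K : ℝ) + 1) * (q : ℝ) ^ expo g s := by
      have h8 : |(x s : ℝ)| ≤ |(x s : ℝ) - (q : ℝ) ^ expo g s * ξ s| + |(q : ℝ) ^ expo g s * ξ s| := by
        have := abs_add_le ((x s : ℝ) - (q : ℝ) ^ expo g s * ξ s) ((q : ℝ) ^ expo g s * ξ s)
        rwa [sub_add_cancel] at this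
      have h9 : |(q : ℝ) ^ expo g s * ξ s| ≤ (q : ℝ) ^ expo g s * K := by
        rw [abs_mul, abs_of_pos (by linarith [hpe s])]
        exact mul_le_mul_of_nonneg_left h3 (by linarith [hpe s])
      linarith
    have h10 : |(x s : ℝ)| ≤ T s := h7.trans (hT1 s)
    have h11 : |x s| ≤ (T s : ℤ) := by exact_mod_cast h10
    rw [abs_le] at h11
    push_cast
    omega
  refine (measure_mono hsub).trans ((measure_biUnion_finset_le _ _).trans ?_)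
  simp_rw [vol_cell g η q hq.pos]
  rw [Finset.sum_const, nsmul_eq_mul, ← ENNReal.ofReal_natCast, ← ENNReal.ofReal_mul (Nat.cast_nonneg _)]
  apply ENNReal.ofReal_le_ofReal
  have hcardF : ((hFfin.toFinset.card : ℕ) : ℝ) = (F.ncard : ℝ) := by
    rw [Set.ncard_eq_toFinset_card F hFfin]
  rw [hcardF]
  have hlog : Real.log B * B ^ (-(1 / 3) : ℝ) ≤ 1 / (2 * δ) * (q : ℝ) ^ (δ - 1 / 6) := by
    have hB0 : 0 < B := by linarith
    have h1 : Real.log B ≤ B ^ (2 * δ) / (2 * δ) := Real.log_le_rpow_div hB0.le (by linarith)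
    have h2 : B ^ (2 * δ) * B ^ (-(1 / 3) : ℝ) = B ^ (2 * δ - 1 / 3) := by
      rw [← Real.rpow_add hB0]
      congr 1
    have h3 : B ^ (2 * δ - 1 / 3) ≤ (q : ℝ) ^ (δ - 1 / 6) := by
      rw [hB, Real.mul_rpow (by norm_num) (by positivity), ← Real.rpow_mul hq0.le]
      have h4 : (2 : ℝ) ^ (2 * δ - 1 / 3) ≤ 1 := Real.rpow_le_one_of_one_le_of_nonpos (by norm_num) (by linarith)
      have h5 : (1 / 2 : ℝ) * (2 * δ - 1 / 3) = δ - 1 / 6 := by ring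
      rw [h5]
      have h6 : (0 : ℝ) < (q : ℝ) ^ (δ - 1 / 6) := Real.rpow_pos_of_pos hq0 _
      nlinarith
    have h4 : 0 < B ^ (-(1 / 3) : ℝ) := Real.rpow_pos_of_pos hB0 _
    calc Real.log B * B ^ (-(1 / 3) : ℝ) ≤ B ^ (2 * δ) / (2 * δ) * B ^ (-(1 / 3) : ℝ) :=
          mul_le_mul_of_nonneg_right h1 h4.le
      _ = 1 / (2 * δ) * (B ^ (2 * δ) * B ^ (-(1 / 3) : ℝ)) := by ring
      _ = 1 / (2 * δ) * B ^ (2 * δ - 1 / 3) := by rw [h2]
      _ ≤ _ := mul_le_mul_of_nonneg_left h3 (by positivity)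
  have hlog0 : 0 ≤ Real.log B * B ^ (-(1 / 3) : ℝ) :=
    mul_nonneg (Real.log_nonneg (by linarith)) (Real.rpow_nonneg (by linarith) _)
  have hFb : (F.ncard : ℝ) ≤ |C| * (1 / (2 * δ) * (q : ℝ) ^ (δ - 1 / 6)) *
      ∏ s : (Σ i, Fin (g i)), ((2 * (K : ℝ) + 6) * (q : ℝ) ^ expo g s) := by
    refine hmain.trans ?_
    have h1 : ∏ s : (Σ i, Fin (g i)), ((2 * T s + 1 : ℕ) : ℝ) ≤
        ∏ s : (Σ i, Fin (g i)), ((2 * (K : ℝ) + 6) * (q : ℝ) ^ expo g s) := by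
      refine Finset.prod_le_prod (fun s _ => Nat.cast_nonneg _) fun s _ => ?_
      have := hT2 s
      have := hpe s
      push_cast
      linarith
    have h2 : C * (Real.log B * B ^ (-(1 / 3) : ℝ)) ≤ |C| * (1 / (2 * δ) * (q : ℝ) ^ (δ - 1 / 6)) :=
      (mul_le_mul_of_nonneg_right (le_abs_self C) hlog0).trans (mul_le_mul_of_nonneg_left hlog (abs_nonneg C))
    refine (mul_le_mul_of_nonneg_right h2 (Finset.prod_nonneg fun s _ => Nat.cast_nonneg _)).trans ?_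
    exact mul_le_mul_of_nonneg_left h1 (by positivity)
  have hprod : (∏ s : (Σ i, Fin (g i)), ((2 * (K : ℝ) + 6) * (q : ℝ) ^ expo g s)) *
      ∏ s : (Σ i, Fin (g i)), (2 * (q : ℝ) ^ η / (q : ℝ) ^ expo g s) = (4 * K + 12) ^ n * (q : ℝ) ^ (n * η) := by
    rw [← Finset.prod_mul_distrib]
    have h1 : ∀ s : (Σ i, Fin (g i)), ((2 * (K : ℝ) + 6) * (q : ℝ) ^ expo g s) * (2 * (q : ℝ) ^ η / (q : ℝ) ^ expo g s) =
        (4 * K + 12) * (q : ℝ) ^ η := by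
      intro s
      have : (q : ℝ) ^ expo g s ≠ 0 := by have := hpe s; positivity
      field_simp
      ring
    rw [Finset.prod_congr rfl fun s _ => h1 s, Finset.prod_const, Finset.card_univ, hcard, mul_pow,
      ← Real.rpow_natCast ((q : ℝ) ^ η) n, ← Real.rpow_mul hq0.le, mul_comm η]
  calc (F.ncard : ℝ) * ∏ s : (Σ i, Fin (g i)), (2 * (q : ℝ) ^ η / (q : ℝ) ^ expo g s)
      ≤ (|C| * (1 / (2 * δ) * (q : ℝ) ^ (δ - 1 / 6)) *
        ∏ s : (Σ i, Fin (g i)), ((2 * (K : ℝ) + 6) * (q : ℝ) ^ expo g s)) *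
        ∏ s : (Σ i, Fin (g i)), (2 * (q : ℝ) ^ η / (q : ℝ) ^ expo g s) :=
        mul_le_mul_of_nonneg_right hFb (Finset.prod_nonneg fun s _ => by positivity)
    _ = |C| * (1 / (2 * δ) * (q : ℝ) ^ (δ - 1 / 6)) * ((4 * K + 12) ^ n * (q : ℝ) ^ (n * η)) := by
        rw [mul_assoc, hprod]
    _ = |C| * (1 / (2 * δ)) * (4 * K + 12) ^ n * ((q : ℝ) ^ (δ - 1 / 6) * (q : ℝ) ^ (n * η)) := by ring
    _ = |C| * (1 / (2 * δ)) * (4 * K + 12) ^ n * (q : ℝ) ^ (-γ) := by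
        rw [← Real.rpow_add hq0]
        congr 2
        rw [hδ]
        ring

/-- **The weighted form.** -/
theorem weighted (g : I → ℕ) (P : ℕ → (I → ℤ[X]) → Prop) (hP : InAllLattices g P) (η γ : ℝ) (hη : 0 ≤ η)
    (hγ : 0 < γ) (h : (∑ i, g i : ℕ) * η + γ < 1 / 6) (w : ℕ → ℝ≥0∞)
    (hw : ∑' q, w q * ENNReal.ofReal ((q : ℝ) ^ (-γ)) ≠ ∞) :
    ∀ᵐ ξ : (Σ i, Fin (g i)) → ℝ,
      ∑' q, {ξ | IsPrimePow q ∧ ¬ AllNear g P η q ξ}.indicator (fun _ => w q) ξ ≠ ∞ := by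
  classical
  have hmeas : ∀ q : ℕ, MeasurableSet {ξ : (Σ i, Fin (g i)) → ℝ | IsPrimePow q ∧ ¬ AllNear g P η q ξ} := by
    intro q
    by_cases hq : IsPrimePow q
    · have : {ξ : (Σ i, Fin (g i)) → ℝ | IsPrimePow q ∧ ¬ AllNear g P η q ξ} = {ξ | ¬ AllNear g P η q ξ} := by
        ext ξ
        exact ⟨fun h => h.2, fun h => ⟨hq, h⟩⟩
      rw [this]
      exact meas_notAllNear g P η q hq.pos
    · have : {ξ : (Σ i, Fin (g i)) → ℝ | IsPrimePow q ∧ ¬ AllNear g P η q ξ} = ∅ := by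
        ext ξ
        exact ⟨fun h => hq h.1, fun h => h.elim⟩
      rw [this]
      exact MeasurableSet.empty
  have hK : ∀ K : ℕ, ∀ᵐ ξ ∂(volume.restrict (Set.Icc (fun _ : (Σ i, Fin (g i)) => -(K : ℝ)) (fun _ => (K : ℝ)))),
      ∑' q, {ξ | IsPrimePow q ∧ ¬ AllNear g P η q ξ}.indicator (fun _ => w q) ξ ≠ ∞ := by
    intro K
    obtain ⟨D, hD0, hD⟩ := vol_bad g P hP η γ hη hγ h K
    have hm : ∀ q : ℕ, Measurable ({ξ | IsPrimePow q ∧ ¬ AllNear g P η q ξ}.indicator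
        (fun _ : (Σ i, Fin (g i)) → ℝ => w q)) := fun q => measurable_const.indicator (hmeas q)
    have hint : ∫⁻ ξ in Set.Icc (fun _ : (Σ i, Fin (g i)) => -(K : ℝ)) (fun _ => (K : ℝ)),
        ∑' q, {ξ | IsPrimePow q ∧ ¬ AllNear g P η q ξ}.indicator (fun _ => w q) ξ ≠ ∞ := by
      rw [lintegral_tsum fun q => (hm q).aemeasurable]
      have hle : ∀ q : ℕ, ∫⁻ ξ in Set.Icc (fun _ : (Σ i, Fin (g i)) => -(K : ℝ)) (fun _ => (K : ℝ)),
          {ξ | IsPrimePow q ∧ ¬ AllNear g P η q ξ}.indicator (fun _ => w q) ξ ≤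
            ENNReal.ofReal D * (w q * ENNReal.ofReal ((q : ℝ) ^ (-γ))) := by
        intro q
        rw [lintegral_indicator_const (hmeas q), Measure.restrict_apply (hmeas q)]
        by_cases hq : IsPrimePow q
        · have h1 : {ξ : (Σ i, Fin (g i)) → ℝ | IsPrimePow q ∧ ¬ AllNear g P η q ξ} = {ξ | ¬ AllNear g P η q ξ} := by
            ext ξ
            exact ⟨fun h => h.2, fun h => ⟨hq, h⟩⟩
          rw [h1]
          refine (mul_le_mul_right (hD q hq) (w q)).trans ?_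
          rw [ENNReal.ofReal_mul hD0]
          apply le_of_eq
          ring
        · have h1 : {ξ : (Σ i, Fin (g i)) → ℝ | IsPrimePow q ∧ ¬ AllNear g P η q ξ} = ∅ := by
            ext ξ
            exact ⟨fun h => hq h.1, fun h => h.elim⟩
          rw [h1, Set.empty_inter, measure_empty, mul_zero]
          exact zero_le
      refine ne_top_of_le_ne_top ?_ (ENNReal.tsum_le_tsum hle)
      rw [ENNReal.tsum_mul_left]
      exact ENNReal.mul_ne_top ENNReal.ofReal_ne_top hw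
    have h2 := ae_lt_top (Measurable.tsum hm) hint
    filter_upwards [h2] with ξ hξ
    exact hξ.ne
  have hK' : ∀ᵐ ξ : (Σ i, Fin (g i)) → ℝ, ∀ K : ℕ,
      ξ ∈ Set.Icc (fun _ : (Σ i, Fin (g i)) => -(K : ℝ)) (fun _ => (K : ℝ)) →
      ∑' q, {ξ | IsPrimePow q ∧ ¬ AllNear g P η q ξ}.indicator (fun _ => w q) ξ ≠ ∞ :=
    ae_all_iff.2 fun K => (ae_restrict_iff' measurableSet_Icc).1 (hK K)
  filter_upwards [hK'] with ξ hξ
  obtain ⟨K, hK⟩ : ∃ K : ℕ, ∀ s, |ξ s| ≤ K := by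
    obtain ⟨K, hK⟩ := exists_nat_ge (∑ s, |ξ s|)
    exact ⟨K, fun s => (Finset.single_le_sum (f := fun s => |ξ s|) (fun t _ => abs_nonneg _)
      (Finset.mem_univ s)).trans hK⟩
  exact hξ K ⟨fun s => (abs_le.1 (hK s)).1, fun s => (abs_le.1 (hK s)).2⟩

end Pool.Agent.N220.ME
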