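import Mathlib
import Pool.Agent.N220.ME.Metric

/-!
# Almost every point: the final form
-/

set_option autoImplicit false

namespace Pool.Agent.N220.ME

open Polynomial MeasureTheory Filter Topology Pool.Agent.N578.LB
open scoped ENNReal

variable {I : Type} [Fintype I]

omit [Fintype I] in
lemma AllNear.mono {g : I → ℕ} {P : ℕ → (I → ℤ[X]) → Prop} {η η' : ℝ} (h : η ≤ η') {q : ℕ} (hq : 0 < q)
    {ξ : (Σ i, Fin (g i)) → ℝ} (h1 : AllNear g P η' q ξ) : AllNear g P η q ξ := by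
  intro x hx hd
  refine h1 x (fun s => (hx s).trans ?_) hd
  exact Real.rpow_le_rpow_of_exponent_le (by exact_mod_cast hq) h

theorem tower [DecidableEq I] (g : I → ℕ) (P : ℕ → (I → ℤ[X]) → Prop) (hP : InAllLattices g P) (η : ℝ)
    (hη : 0 ≤ η) (h : (∑ i, g i : ℕ) * η < 1 / 6) (p : ℕ) (hp : p.Prime) :
    ∀ᵐ ξ : (Σ i, Fin (g i)) → ℝ, ∀ᶠ m : ℕ in atTop, AllNear g P η (p ^ m) ξ := by
  classical
  obtain ⟨γ, hγ⟩ : ∃ γ : ℝ, γ = (1 / 6 - (∑ i, g i : ℕ) * η) / 2 := ⟨_, rfl⟩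
  have hγ0 : 0 < γ := by rw [hγ]; linarith
  have hγ1 : (∑ i, g i : ℕ) * η + γ < 1 / 6 := by rw [hγ]; linarith
  have hinj : Function.Injective (fun m : ℕ => p ^ m) := Nat.pow_right_injective hp.two_le
  have hp1 : (1 : ℝ) < p := by exact_mod_cast hp.one_lt
  have hw : ∑' q : ℕ, (Set.range (fun m : ℕ => p ^ m)).indicator (fun _ => (1 : ℝ≥0∞)) q *
      ENNReal.ofReal ((q : ℝ) ^ (-γ)) ≠ ∞ := by
    have h1 : ∀ q : ℕ, (Set.range (fun m : ℕ => p ^ m)).indicator (fun _ => (1 : ℝ≥0∞)) q *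
        ENNReal.ofReal ((q : ℝ) ^ (-γ)) = (Set.range (fun m : ℕ => p ^ m)).indicator
          (fun q : ℕ => ENNReal.ofReal ((q : ℝ) ^ (-γ))) q := by
      intro q
      by_cases hq : q ∈ Set.range (fun m : ℕ => p ^ m)
      · rw [Set.indicator_of_mem hq, Set.indicator_of_mem hq, one_mul]
      · rw [Set.indicator_of_notMem hq, Set.indicator_of_notMem hq, zero_mul]
    rw [tsum_congr h1, ← tsum_subtype, tsum_range (fun q : ℕ => ENNReal.ofReal ((q : ℝ) ^ (-γ))) hinj]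
    have h2 : ∀ m : ℕ, (((p ^ m : ℕ) : ℝ)) ^ (-γ) = ((p : ℝ) ^ (-γ)) ^ m := by
      intro m
      push_cast
      rw [← Real.rpow_natCast, ← Real.rpow_natCast, ← Real.rpow_mul (by linarith), ← Real.rpow_mul (by linarith),
        mul_comm]
    have h3 : (p : ℝ) ^ (-γ) < 1 := Real.rpow_lt_one_of_one_lt_of_neg hp1 (by linarith)
    have h4 : Summable (fun m : ℕ => (((p ^ m : ℕ) : ℝ)) ^ (-γ)) := by
      simp_rw [h2]
      exact summable_geometric_of_lt_one (by positivity) h3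
    exact h4.tsum_ofReal_ne_top
  filter_upwards [weighted g P hP η γ hη hγ0 hγ1 _ hw] with ξ hξ
  have h5 := ENNReal.tendsto_cofinite_zero_of_tsum_ne_top hξ
  have h6 : ∀ᶠ q : ℕ in cofinite, {ξ | IsPrimePow q ∧ ¬ AllNear g P η q ξ}.indicator
      (fun _ => (Set.range (fun m : ℕ => p ^ m)).indicator (fun _ => (1 : ℝ≥0∞)) q) ξ < 1 :=
    h5.eventually (gt_mem_nhds (by norm_num))
  have h7 : ∀ᶠ m : ℕ in cofinite, {ξ | IsPrimePow (p ^ m) ∧ ¬ AllNear g P η (p ^ m) ξ}.indicator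
      (fun _ => (Set.range (fun m : ℕ => p ^ m)).indicator (fun _ => (1 : ℝ≥0∞)) (p ^ m)) ξ < 1 :=
    hinj.tendsto_cofinite.eventually h6
  rw [Nat.cofinite_eq_atTop] at h7
  filter_upwards [h7, eventually_ge_atTop 1] with m hm hm1
  by_contra hcon
  have h8 : ξ ∈ {ξ | IsPrimePow (p ^ m) ∧ ¬ AllNear g P η (p ^ m) ξ} :=
    ⟨hp.isPrimePow.pow (by omega), hcon⟩
  rw [Set.indicator_of_mem h8, Set.indicator_of_mem (Set.mem_range_self m)] at hm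
  exact lt_irrefl _ hm

theorem count [DecidableEq I] (g : I → ℕ) (P : ℕ → (I → ℤ[X]) → Prop) (hP : InAllLattices g P) (η β : ℝ)
    (hη : 0 ≤ η) (h : (∑ i, g i : ℕ) * η < 1 / 6) (hβ : 5 / 6 + (∑ i, g i : ℕ) * η < β) :
    ∀ᵐ ξ : (Σ i, Fin (g i)) → ℝ, ∃ C : ℝ, 0 ≤ C ∧ ∀ Q : ℕ,
      ({q : ℕ | q ≤ Q ∧ IsPrimePow q ∧ ¬ AllNear g P η q ξ}.ncard : ℝ) ≤ C * (Q : ℝ) ^ β := by
  classical
  obtain ⟨γ, hγ⟩ : ∃ γ : ℝ, γ = (1 / 6 - (∑ i, g i : ℕ) * η + max 0 (1 - β)) / 2 := ⟨_, rfl⟩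
  have hmax : max 0 (1 - β) < 1 / 6 - (∑ i, g i : ℕ) * η := max_lt (by linarith) (by linarith)
  have hmax0 : 0 ≤ max 0 (1 - β) := le_max_left _ _
  have hmax1 : 1 - β ≤ max 0 (1 - β) := le_max_right _ _
  have hγ0 : 0 < γ := by rw [hγ]; linarith
  have hγ1 : (∑ i, g i : ℕ) * η + γ < 1 / 6 := by rw [hγ]; linarith
  have hγ2 : 1 < β + γ := by rw [hγ]; linarith
  have hnη : 0 ≤ ((∑ i, g i : ℕ) : ℝ) * η := by positivity
  have hβ0 : 0 < β := by linarith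
  have hw : ∑' q : ℕ, ENNReal.ofReal ((q : ℝ) ^ (-β)) * ENNReal.ofReal ((q : ℝ) ^ (-γ)) ≠ ∞ := by
    have h1 : ∀ q : ℕ, ENNReal.ofReal ((q : ℝ) ^ (-β)) * ENNReal.ofReal ((q : ℝ) ^ (-γ)) =
        ENNReal.ofReal ((q : ℝ) ^ (-(β + γ))) := by
      intro q
      rw [← ENNReal.ofReal_mul (by positivity)]
      congr 1
      rcases Nat.eq_zero_or_pos q with rfl | hq
      · rw [Nat.cast_zero, Real.zero_rpow (show -β ≠ 0 by linarith), zero_mul,
          Real.zero_rpow (show -(β + γ) ≠ 0 by linarith)]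
      · rw [← Real.rpow_add (by exact_mod_cast hq)]
        congr 1
        ring
    rw [tsum_congr h1]
    exact (Real.summable_nat_rpow.2 (by linarith)).tsum_ofReal_ne_top
  filter_upwards [weighted g P hP η γ hη hγ0 hγ1 _ hw] with ξ hξ
  refine ⟨(∑' q, {ξ | IsPrimePow q ∧ ¬ AllNear g P η q ξ}.indicator
    (fun _ => ENNReal.ofReal ((q : ℝ) ^ (-β))) ξ).toReal, ENNReal.toReal_nonneg, fun Q => ?_⟩
  obtain ⟨Z, hZ⟩ : ∃ Z : Finset ℕ, Z = (Finset.range (Q + 1)).filter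
    (fun q => IsPrimePow q ∧ ¬ AllNear g P η q ξ) := ⟨_, rfl⟩
  have hZe : {q : ℕ | q ≤ Q ∧ IsPrimePow q ∧ ¬ AllNear g P η q ξ} = (Z : Set ℕ) := by
    ext q
    rw [hZ, Finset.mem_coe, Finset.mem_filter, Finset.mem_range, Nat.lt_succ_iff]
    rfl
  rw [hZe, Set.ncard_coe_finset]
  have h2 : ∑ q ∈ Z, ENNReal.ofReal ((q : ℝ) ^ (-β)) ≤
      ∑' q, {ξ | IsPrimePow q ∧ ¬ AllNear g P η q ξ}.indicator (fun _ => ENNReal.ofReal ((q : ℝ) ^ (-β))) ξ := by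
    refine le_trans (le_of_eq ?_) (ENNReal.sum_le_tsum Z)
    refine Finset.sum_congr rfl fun q hq => ?_
    rw [hZ, Finset.mem_filter] at hq
    rw [Set.indicator_of_mem (show ξ ∈ {ξ | IsPrimePow q ∧ ¬ AllNear g P η q ξ} from hq.2)]
  rw [← ENNReal.ofReal_sum_of_nonneg (fun q _ => by positivity)] at h2
  have h3 : ∑ q ∈ Z, (q : ℝ) ^ (-β) ≤ (∑' q, {ξ | IsPrimePow q ∧ ¬ AllNear g P η q ξ}.indicator
      (fun _ => ENNReal.ofReal ((q : ℝ) ^ (-β))) ξ).toReal := by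
    have := ENNReal.toReal_mono hξ h2
    rwa [ENNReal.toReal_ofReal (Finset.sum_nonneg fun q _ => by positivity)] at this
  rcases Nat.eq_zero_or_pos Q with hQ | hQ
  · have : Z = ∅ := by
      rw [hZ, Finset.filter_eq_empty_iff]
      intro q hq hc
      rw [hQ, Finset.mem_range] at hq
      have := hc.1.pos
      omega
    rw [this, Finset.card_empty, Nat.cast_zero]
    exact mul_nonneg ENNReal.toReal_nonneg (by positivity)
  have hQ0 : (0 : ℝ) < Q := by exact_mod_cast hQ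
  have h4 : (Z.card : ℝ) * (Q : ℝ) ^ (-β) ≤ ∑ q ∈ Z, (q : ℝ) ^ (-β) := by
    rw [← nsmul_eq_mul]
    refine Finset.card_nsmul_le_sum _ _ _ fun q hq => ?_
    rw [hZ, Finset.mem_filter, Finset.mem_range] at hq
    have h5 : (0 : ℝ) < q := by exact_mod_cast hq.2.1.pos
    exact Real.rpow_le_rpow_of_nonpos h5 (by exact_mod_cast (by omega : q ≤ Q)) (by linarith)
  have h5 : (0 : ℝ) < (Q : ℝ) ^ β := Real.rpow_pos_of_pos hQ0 _
  have h6 : (Q : ℝ) ^ (-β) * (Q : ℝ) ^ β = 1 := by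
    rw [← Real.rpow_add hQ0, neg_add_cancel, Real.rpow_zero]
  calc (Z.card : ℝ) = (Z.card : ℝ) * (Q : ℝ) ^ (-β) * (Q : ℝ) ^ β := by rw [mul_assoc, h6, mul_one]
    _ ≤ _ := mul_le_mul_of_nonneg_right (h4.trans h3) h5.le

/-- **Almost every point.** -/
theorem almostEveryPoint [DecidableEq I] (g : I → ℕ) (P : ℕ → (I → ℤ[X]) → Prop) (hP : InAllLattices g P) :
    ∀ᵐ ξ : (Σ i, Fin (g i)) → ℝ, HoldsNear g P ξ := by
  have h1 : ∀ᵐ ξ : (Σ i, Fin (g i)) → ℝ, ∀ (η p : ℚ × ℕ), 0 ≤ (η.1 : ℝ) → (∑ i, g i : ℕ) * (η.1 : ℝ) < 1 / 6 →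
      p.2.Prime → ∀ᶠ m : ℕ in atTop, AllNear g P (η.1 : ℝ) (p.2 ^ m) ξ := by
    rw [ae_all_iff]
    intro η
    rw [ae_all_iff]
    intro p
    by_cases h : 0 ≤ (η.1 : ℝ) ∧ (∑ i, g i : ℕ) * (η.1 : ℝ) < 1 / 6 ∧ p.2.Prime
    · filter_upwards [tower g P hP η.1 h.1 h.2.1 p.2 h.2.2] with ξ hξ _ _ _
      exact hξ
    · exact Eventually.of_forall fun ξ h2 h3 h4 => absurd ⟨h2, h3, h4⟩ h
  have h2 : ∀ᵐ ξ : (Σ i, Fin (g i)) → ℝ, ∀ (η β : ℚ), 0 ≤ (η : ℝ) → (∑ i, g i : ℕ) * (η : ℝ) < 1 / 6 →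
      5 / 6 + (∑ i, g i : ℕ) * (η : ℝ) < β → ∃ C : ℝ, 0 ≤ C ∧ ∀ Q : ℕ,
      ({q : ℕ | q ≤ Q ∧ IsPrimePow q ∧ ¬ AllNear g P (η : ℝ) q ξ}.ncard : ℝ) ≤ C * (Q : ℝ) ^ (β : ℝ) := by
    rw [ae_all_iff]
    intro η
    rw [ae_all_iff]
    intro β
    by_cases h : 0 ≤ (η : ℝ) ∧ (∑ i, g i : ℕ) * (η : ℝ) < 1 / 6 ∧ 5 / 6 + (∑ i, g i : ℕ) * (η : ℝ) < β
    · filter_upwards [count g P hP η β h.1 h.2.1 h.2.2] with ξ hξ _ _ _
      exact hξ
    · exact Eventually.of_forall fun ξ h2 h3 h4 => absurd ⟨h2, h3, h4⟩ h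
  filter_upwards [h1, h2] with ξ hξ1 hξ2 η hη hn
  obtain ⟨n, hn'⟩ : ∃ n : ℝ, n = ((∑ i, g i : ℕ) : ℝ) := ⟨_, rfl⟩
  have hn0 : 0 ≤ n := by rw [hn']; exact Nat.cast_nonneg _
  rw [← hn'] at hn ⊢
  rw [← hn'] at hξ1 hξ2
  -- a rational number a little above `η`
  have hup : ∀ c : ℝ, n * η < c → ∃ η' : ℚ, η ≤ (η' : ℝ) ∧ n * (η' : ℝ) < c := by
    intro c hc
    obtain ⟨η', h3, h4⟩ := exists_rat_btwn (show η < η + (c - n * η) / (n + 1) by
      have : 0 < (c - n * η) / (n + 1) := div_pos (by linarith) (by linarith)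
      linarith)
    refine ⟨η', h3.le, ?_⟩
    have h5 : n * (η' : ℝ) ≤ n * (η + (c - n * η) / (n + 1)) := mul_le_mul_of_nonneg_left h4.le hn0
    have h6 : n * ((c - n * η) / (n + 1)) < c - n * η := by
      rw [mul_div_assoc', div_lt_iff₀ (by linarith)]
      nlinarith
    linarith [mul_add n η ((c - n * η) / (n + 1))]
  constructor
  · intro p hp
    obtain ⟨η', h3, h4⟩ := hup _ hn
    filter_upwards [hξ1 (η', 0) (0, p) (hη.trans h3) h4 hp] with m hm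
    exact hm.mono h3 (pow_pos hp.pos m)
  · intro β hβ
    obtain ⟨η', h3, h4⟩ := hup (min (1 / 6) (β - 5 / 6)) (lt_min hn (by linarith))
    have h5 := lt_min_iff.1 h4
    obtain ⟨β', h6, h7⟩ := exists_rat_btwn (show 5 / 6 + n * (η' : ℝ) < β by linarith)
    obtain ⟨C, hC0, hC⟩ := hξ2 η' β' (hη.trans h3) h5.1 h6
    refine ⟨C, fun Q => ?_⟩
    have hsub : {q : ℕ | q ≤ Q ∧ IsPrimePow q ∧ ¬ AllNear g P η q ξ} ⊆
        {q : ℕ | q ≤ Q ∧ IsPrimePow q ∧ ¬ AllNear g P (η' : ℝ) q ξ} :=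
      fun q hq => ⟨hq.1, hq.2.1, fun h8 => hq.2.2 (h8.mono h3 hq.2.1.pos)⟩
    have hfin : {q : ℕ | q ≤ Q ∧ IsPrimePow q ∧ ¬ AllNear g P (η' : ℝ) q ξ}.Finite :=
      (Set.finite_le_nat Q).subset fun q hq => hq.1
    have h9 : ({q : ℕ | q ≤ Q ∧ IsPrimePow q ∧ ¬ AllNear g P η q ξ}.ncard : ℝ) ≤
        ({q : ℕ | q ≤ Q ∧ IsPrimePow q ∧ ¬ AllNear g P (η' : ℝ) q ξ}.ncard : ℝ) := by
      exact_mod_cast Set.ncard_le_ncard hsub hfin
    refine h9.trans ?_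
    rcases Nat.eq_zero_or_pos Q with hQ | hQ
    · have he : {q : ℕ | q ≤ Q ∧ IsPrimePow q ∧ ¬ AllNear g P (η' : ℝ) q ξ} = ∅ := by
        ext q
        refine ⟨fun h => ?_, fun h => h.elim⟩
        have := h.2.1.pos
        have := h.1
        omega
      rw [he, Set.ncard_empty, Nat.cast_zero]
      positivity
    · refine (hC Q).trans (mul_le_mul_of_nonneg_left ?_ hC0)
      exact Real.rpow_le_rpow_of_exponent_le (by exact_mod_cast hQ) h7.le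

/-- The number fields in `ℂ` are countable. -/
theorem countable_fields : Countable {E : IntermediateField ℚ ℂ // FiniteDimensional ℚ E} := by
  have hc : Countable {z : ℂ // IsAlgebraic ℚ z} := (Algebraic.countable ℚ ℂ).to_subtype
  have h : ∀ E : {E : IntermediateField ℚ ℂ // FiniteDimensional ℚ E}, ∃ z : {z : ℂ // IsAlgebraic ℚ z},
      E.1 = IntermediateField.adjoin ℚ {(z : ℂ)} := by
    rintro ⟨E, hE⟩
    haveI := hE
    obtain ⟨α, hα⟩ := Field.exists_primitive_element ℚ E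
    refine ⟨⟨(α : ℂ), ?_⟩, ?_⟩
    · have h1 : IsAlgebraic ℚ α := Algebra.IsAlgebraic.isAlgebraic α
      exact (isAlgebraic_algebraMap_iff (algebraMap E ℂ).injective).2 h1
    · have h2 := congrArg IntermediateField.lift hα
      have h3 := IntermediateField.lift_adjoin_simple (F := ℚ) (E := ℂ) E α
      have h4 := IntermediateField.lift_top (F := ℚ) (E := ℂ) (K := E)
      exact (h4.symm.trans h2.symm).trans h3
  choose f hf using h
  refine Function.Injective.countable (f := f) fun E E' hEE => ?_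
  apply Subtype.ext
  rw [hf E, hf E', hEE]

/-- One null set for all number fields `E` and all `r`. -/
theorem allFields [DecidableEq I] (g : I → ℕ) (P : IntermediateField ℚ ℂ → ℕ → ℕ → (I → ℤ[X]) → Prop)
    (hP : ∀ E : IntermediateField ℚ ℂ, FiniteDimensional ℚ E → ∀ r : ℕ, (∀ i, r < g i) → InAllLattices g (P E r)) :
    ∀ᵐ ξ : (Σ i, Fin (g i)) → ℝ, ∀ E : IntermediateField ℚ ℂ, FiniteDimensional ℚ E → ∀ r : ℕ, (∀ i, r < g i) →
      HoldsNear g (P E r) ξ := by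
  haveI := countable_fields
  have h : ∀ᵐ ξ : (Σ i, Fin (g i)) → ℝ, ∀ E : {E : IntermediateField ℚ ℂ // FiniteDimensional ℚ E}, ∀ r : ℕ,
      (∀ i, r < g i) → HoldsNear g (P E.1 r) ξ := by
    rw [ae_all_iff]
    intro E
    rw [ae_all_iff]
    intro r
    by_cases hr : ∀ i, r < g i
    · filter_upwards [almostEveryPoint g _ (hP E.1 E.2 r hr)] with ξ hξ _
      exact hξ
    · exact Eventually.of_forall fun ξ h => absurd h hr
  filter_upwards [h] with ξ hξ E hE r hr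
  exact hξ ⟨E, hE⟩ r hr

end Pool.Agent.N220.ME
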