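import Mathlib
import Pool.Agent.N220.ME.Final
import Pool.Agent.N578.LB.DefFor

/-!
# Almost every point: countable families of properties
-/

set_option autoImplicit false

namespace Pool.Agent.N220.ME

open Polynomial MeasureTheory Filter Topology Pool.Agent.N578.LB

variable {I : Type} [Fintype I] [DecidableEq I]

theorem of_for (g : I → ℕ) {J : Type} (P : J → ℕ → (I → ℤ[X]) → Prop) (h : InAllLatticesFor g P) (j : J) :
    InAllLattices g (P j) := by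
  obtain ⟨⟨C, hC⟩, R, hR⟩ := h
  exact ⟨⟨C, fun q hq B hB A hA hA2 a lo N hN => hC j q hq B hB A hA hA2 a lo N hN⟩, R,
    fun q hq hqR x₀ => hR j q hq hqR x₀⟩

theorem allFor (g : I → ℕ) {J : Type} [Countable J] (P : J → ℕ → (I → ℤ[X]) → Prop)
    (hP : ∀ j, InAllLattices g (P j)) : ∀ᵐ ξ : (Σ i, Fin (g i)) → ℝ, ∀ j, HoldsNear g (P j) ξ := by
  rw [ae_all_iff]
  exact fun j => almostEveryPoint g _ (hP j)

theorem countable_ratPoly : Countable ℚ[X] :=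
  Cardinal.mk_le_aleph0_iff.1 (Polynomial.cardinalMk_le_max.trans (by simp))

/-- One null set for all `χ₀` and all `d`. -/
theorem allTame (g : I → ℕ) (T : ℕ → Prop) (P : ℚ[X] → ℕ → ℕ → (I → ℤ[X]) → Prop)
    (hP : ∀ d : ℕ, T d → ∀ D : ℕ, InAllLatticesFor g (J := {χ₀ : ℚ[X] // χ₀ ≠ 0 ∧ χ₀.natDegree ≤ D})
      (fun χ₀ => P χ₀.1 d)) :
    ∀ᵐ ξ : (Σ i, Fin (g i)) → ℝ, ∀ χ₀ : ℚ[X], χ₀ ≠ 0 → ∀ d : ℕ, T d → HoldsNear g (P χ₀ d) ξ := by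
  have := countable_ratPoly
  have h := allFor g (J := {j : ℚ[X] × ℕ // j.1 ≠ 0 ∧ T j.2}) (fun j => P j.1.1 j.1.2) fun j =>
    of_for g (J := {χ₀ : ℚ[X] // χ₀ ≠ 0 ∧ χ₀.natDegree ≤ j.1.1.natDegree}) (fun χ₀ => P χ₀.1 j.1.2)
      (hP j.1.2 j.2.2 j.1.1.natDegree) ⟨j.1.1, j.2.1, le_rfl⟩
  filter_upwards [h] with ξ hξ χ₀ hχ d hd
  exact hξ ⟨(χ₀, d), hχ, hd⟩

end Pool.Agent.N220.ME
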